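import Pool.Agent.H.MP_f011a7_co.Sil.First

/-!
# MP_f011a7_co: the first entry is positively associated with every strong up-set, `0 < q ≤ 1`

For every `n`, every `0 < q ≤ 1`, every strong up-set `B` and every bound `j` on the first entry
the families `{a : a 0 ≤ j}` and `B` are positively correlated under `μ(a) ∝ q ^ (n - f(a))`.
-/

set_option autoImplicit false

namespace Pool.Agent.Results.MP_f011a7_co.FirstEntry

open Finset Equiv

variable {n : ℕ}

/-- `A` is a strong up-set: if `a ∈ A`, `i < j` and the position of `i` in `a` is behind the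
position of `j`, then `a` with the entries `i` and `j` exchanged is in `A`. -/
def StrongUp (A : Finset (Equiv.Perm (Fin n))) : Prop :=
  ∀ a ∈ A, ∀ i j : Fin n, i < j → a.symm j < a.symm i → swap i j * a ∈ A

/-- the number of fixed points -/
def fixCount (a : Equiv.Perm (Fin n)) : ℕ := (univ.filter fun k => a k = k).card

/-- the measure of a family -/
noncomputable def mu (q : ℝ) (A : Finset (Equiv.Perm (Fin n))) : ℝ :=
  (∑ a ∈ A, q ^ (n - fixCount a)) / ∑ b : Equiv.Perm (Fin n), q ^ (n - fixCount b)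

/-- the indicator function -/
noncomputable def ind (A : Finset (Equiv.Perm (Fin n))) (σ : Equiv.Perm (Fin n)) : ℝ :=
  if σ ∈ A then 1 else 0

theorem ind_mon {A : Finset (Equiv.Perm (Fin n))} (hA : StrongUp A) : FixPA.Mon (ind A) := by
  intro σ p q hpq hσ
  unfold ind
  by_cases h : σ * swap p q ∈ A
  · have h1 := hA _ h (σ p) (σ q) hσ (by
      have e1 : (σ * swap p q).symm (σ q) = p := by
        rw [Equiv.symm_apply_eq]; simp
      have e2 : (σ * swap p q).symm (σ p) = q := by
        rw [Equiv.symm_apply_eq]; simp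
      rw [e1, e2]; exact hpq)
    have h2 : swap (σ p) (σ q) * (σ * swap p q) = σ := by
      rw [← mul_assoc, ← Equiv.mul_swap_eq_swap_mul, mul_assoc, Equiv.swap_mul_self, mul_one]
    rw [h2] at h1
    rw [if_pos h, if_pos h1]
  · rw [if_neg h]
    split_ifs <;> norm_num

theorem fixCount_le (a : Equiv.Perm (Fin n)) : fixCount a ≤ n := by
  unfold fixCount
  calc _ ≤ (univ : Finset (Fin n)).card := Finset.card_le_card (Finset.filter_subset _ _)
    _ = n := by simp

theorem sum_eq {q : ℝ} (hq : 0 < q) (A : Finset (Equiv.Perm (Fin n))) :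
    ∑ a ∈ A, q ^ (n - fixCount a) = q ^ n * FixPA.Hs (1 / q) univ 1 (ind A) := by
  have h1 : FixPA.Om (univ : Finset (Fin n)) 1 = univ := by
    ext σ; simp [FixPA.mem_Om]
  unfold FixPA.Hs
  rw [h1, Finset.mul_sum, ← Finset.sum_filter_add_sum_filter_not univ (fun σ => σ ∈ A)]
  have h2 : ∑ x ∈ univ.filter (fun σ => σ ∉ A), q ^ n * (FixPA.wt (1 / q) univ x * ind A x) = 0 := by
    apply Finset.sum_eq_zero
    intro x hx
    rw [mem_filter] at hx
    unfold ind
    rw [if_neg hx.2]
    simp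
  rw [h2, add_zero]
  have h3 : univ.filter (fun σ => σ ∈ A) = A := by ext σ; simp
  rw [h3]
  apply Finset.sum_congr rfl
  intro a ha
  unfold ind
  rw [if_pos ha, mul_one, FixPA.wt_eq_pow]
  change q ^ (n - fixCount a) = q ^ n * (1 / q) ^ fixCount a
  rw [one_div, inv_pow, ← div_eq_mul_inv, eq_div_iff (by positivity), ← pow_add,
    Nat.sub_add_cancel (fixCount_le a)]

/-- **The first entry against every strong up-set, all `0 < q ≤ 1`.** -/
theorem result : ∀ (n : ℕ) (q : ℝ), 0 < q → q ≤ 1 →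
    ∀ B : Finset (Equiv.Perm (Fin (n + 1))), StrongUp B → ∀ j : Fin (n + 1),
      StrongUp (univ.filter fun a : Equiv.Perm (Fin (n + 1)) => a 0 ≤ j) ∧
      mu q (univ.filter fun a : Equiv.Perm (Fin (n + 1)) => a 0 ≤ j) * mu q B
        ≤ mu q ((univ.filter fun a : Equiv.Perm (Fin (n + 1)) => a 0 ≤ j) ∩ B) := by
  intro n q hq hq2 B hB j
  constructor
  · intro a ha i l hil hinv
    rw [mem_filter] at ha ⊢
    refine ⟨mem_univ _, ?_⟩
    rw [Equiv.Perm.mul_apply]
    by_cases h1 : a 0 = i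
    · exfalso
      rw [← h1, Equiv.symm_apply_apply] at hinv
      exact absurd hinv (not_lt.2 (Fin.zero_le _))
    · by_cases h2 : a 0 = l
      · rw [h2, Equiv.swap_apply_right]
        exact hil.le.trans (h2 ▸ ha.2)
      · rw [Equiv.swap_apply_of_ne_of_ne h1 h2]
        exact ha.2
  have ht1 : 1 ≤ 1 / q := by rw [le_div_iff₀ hq]; linarith
  have h := FixPA.first_row ht1 (ind_mon hB) j
  have hone : FixPA.Hs (1 / q) (univ : Finset (Fin (n + 1))) 1 (fun _ => (1:ℝ))
      = FixPA.Hs (1 / q) (univ : Finset (Fin (n + 1))) 1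
        (ind (univ : Finset (Equiv.Perm (Fin (n + 1))))) := by
    unfold FixPA.Hs ind
    simp
  have hA : FixPA.Hs (1 / q) (univ : Finset (Fin (n + 1))) 1
      (fun σ : Equiv.Perm (Fin (n + 1)) => if σ 0 ≤ j then (1:ℝ) else 0)
      = FixPA.Hs (1 / q) (univ : Finset (Fin (n + 1))) 1
        (ind (univ.filter fun a : Equiv.Perm (Fin (n + 1)) => a 0 ≤ j)) := by
    unfold FixPA.Hs ind
    simp
  have hint : FixPA.Hs (1 / q) (univ : Finset (Fin (n + 1))) 1
      (fun σ : Equiv.Perm (Fin (n + 1)) => (if σ 0 ≤ j then (1:ℝ) else 0) * ind B σ)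
      = FixPA.Hs (1 / q) univ 1
        (ind ((univ.filter fun a : Equiv.Perm (Fin (n + 1)) => a 0 ≤ j) ∩ B)) := by
    unfold FixPA.Hs
    apply Finset.sum_congr rfl
    intro σ _
    congr 1
    unfold ind
    by_cases h1 : σ 0 ≤ j
    · by_cases h2 : σ ∈ B
      · simp [h1, h2]
      · simp [h2]
    · simp [h1]
  rw [hone, hint, hA] at h
  have hqn : 0 < q ^ (n + 1) := by positivity
  have hZ : 0 < FixPA.Hs (1 / q) univ 1 (ind (univ : Finset (Equiv.Perm (Fin (n + 1))))) := by
    have h1 : 0 < ∑ b : Equiv.Perm (Fin (n + 1)), q ^ (n + 1 - fixCount b) :=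
      Finset.sum_pos (fun b _ => by positivity) ⟨1, Finset.mem_univ _⟩
    rw [sum_eq hq] at h1
    exact (mul_pos_iff_of_pos_left hqn).1 h1
  unfold mu
  rw [sum_eq hq B, sum_eq hq (univ.filter fun a : Equiv.Perm (Fin (n + 1)) => a 0 ≤ j),
    sum_eq hq ((univ.filter fun a : Equiv.Perm (Fin (n + 1)) => a 0 ≤ j) ∩ B), sum_eq hq univ]
  rw [mul_div_mul_left _ _ hqn.ne', mul_div_mul_left _ _ hqn.ne', mul_div_mul_left _ _ hqn.ne',
    div_mul_div_comm, div_le_div_iff₀ (mul_pos hZ hZ) hZ]
  nlinarith [mul_le_mul_of_nonneg_right h hZ.le]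

end Pool.Agent.Results.MP_f011a7_co.FirstEntry
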