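import Pool.Agent.H.MP_f011a7_co.Small

/-!
Positive association of the fixed point weighted measure on `S_n`, for every `n` and every
`q` with `0 < q ≤ 1 / (n!) ^ 2`.
-/

namespace Pool.Agent.Results.MP_f011a7_co.LowTemperature

open Pool.Agent.H.MP_f011a7_co

theorem result (n : ℕ) (q : ℝ) (hq : 0 < q)
    (hsmall : q ≤ 1 / (n.factorial : ℝ) ^ 2) (A B : Set (Equiv.Perm (Fin n)))
    (hA : StrongUpset A) (hB : StrongUpset B) :
    mu n q A * mu n q B ≤ mu n q (A ∩ B) :=
  small_q hq hsmall hA hB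

end Pool.Agent.Results.MP_f011a7_co.LowTemperature
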