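import Pool.Agent.H.MP_f011a7_co.One.Lk

/-!
# MP_f011a7_co: the fixed point measure, all `0 < q ≤ 1`, one-sided up-sets

`rk a p q` is the number of the first `p` positions of the permutation `a` which carry one of the
`q` smallest values.  The strong Bruhat order is the order of all these numbers.  A family is
one-sided if it is an up-set in the numbers `rk a p q` with `p ≤ q` alone, or in the numbers
`rk a p q` with `q ≤ p` alone.  We prove `μ(A ∩ B) ≥ μ(A) μ(B)` for all `n`, all `0 < q ≤ 1` and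
all one-sided families `A`, `B` (of the same or of opposite sides).
-/

set_option autoImplicit false

namespace Pool.Agent.Results.MP_f011a7_co.OneSided

open Finset Equiv Pool.Agent.H.MP_f011a7_co.One

variable {n : ℕ}

/-- `A` is a strong up-set: if `a ∈ A`, `i < j` and the position of `i` in `a` is behind the
position of `j`, then `a` with the entries `i` and `j` exchanged is in `A`. -/
def StrongUp (A : Finset (Equiv.Perm (Fin n))) : Prop :=
  ∀ a ∈ A, ∀ i j : Fin n, i < j → a.symm j < a.symm i → swap i j * a ∈ A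

/-- the number of fixed points -/
def fixCount (a : Equiv.Perm (Fin n)) : ℕ := (univ.filter fun k => a k = k).card

/-- the measure of a family -/
noncomputable def mu (q : ℝ) (A : Finset (Equiv.Perm (Fin n))) : ℝ :=
  (∑ a ∈ A, q ^ (n - fixCount a)) / ∑ b : Equiv.Perm (Fin n), q ^ (n - fixCount b)

/-- the number of the first `p` positions of `a` with one of the `q` smallest values -/
def rk (a : Equiv.Perm (Fin n)) (p q : ℕ) : ℕ :=
  (univ.filter fun k : Fin n => (k : ℕ) < p ∧ (a k : ℕ) < q).card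

/-- up-sets in the numbers `rk a p q`, `p ≤ q` -/
def RightUp (A : Finset (Equiv.Perm (Fin n))) : Prop :=
  ∀ a ∈ A, ∀ b : Equiv.Perm (Fin n), (∀ p q, p ≤ q → rk a p q ≤ rk b p q) → b ∈ A

/-- up-sets in the numbers `rk a p q`, `q ≤ p` -/
def LeftUp (A : Finset (Equiv.Perm (Fin n))) : Prop :=
  ∀ a ∈ A, ∀ b : Equiv.Perm (Fin n), (∀ p q, q ≤ p → rk a p q ≤ rk b p q) → b ∈ A

/-- one-sided up-sets -/
def OneSidedUp (A : Finset (Equiv.Perm (Fin n))) : Prop := RightUp A ∨ LeftUp A

/-! ### one-sided up-sets are strong up-sets -/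

theorem rk_swap (a : Equiv.Perm (Fin n)) {i j : Fin n} (hij : i < j)
    (hinv : a.symm j < a.symm i) (p q : ℕ) : rk a p q ≤ rk (swap i j * a) p q := by
  obtain ⟨x, hx⟩ : ∃ x, x = a.symm j := ⟨_, rfl⟩
  obtain ⟨y, hy⟩ : ∃ y, y = a.symm i := ⟨_, rfl⟩
  have hax : a x = j := by rw [hx, Equiv.apply_symm_apply]
  have hay : a y = i := by rw [hy, Equiv.apply_symm_apply]
  have hxy : x < y := by rw [hx, hy]; exact hinv
  have hbx : (swap i j * a) x = i := by rw [Equiv.Perm.mul_apply, hax, Equiv.swap_apply_right]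
  have hby : (swap i j * a) y = j := by rw [Equiv.Perm.mul_apply, hay, Equiv.swap_apply_left]
  have hbk : ∀ k, k ≠ x → k ≠ y → (swap i j * a) k = a k := by
    intro k h1 h2
    rw [Equiv.Perm.mul_apply]
    apply Equiv.swap_apply_of_ne_of_ne
    · intro h3
      exact h2 (by rw [hy, ← h3, Equiv.symm_apply_apply])
    · intro h3
      exact h1 (by rw [hx, ← h3, Equiv.symm_apply_apply])
  have hij' : (i : ℕ) < (j : ℕ) := hij
  have hxy' : (x : ℕ) < (y : ℕ) := hxy
  unfold rk
  refine Finset.card_le_card_of_injOn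
    (fun k => if k = y then (if (j : ℕ) < q then y else x) else k) ?_ ?_
  · intro k hk
    rw [Finset.mem_coe, Finset.mem_filter] at hk
    rw [Finset.mem_coe, Finset.mem_filter]
    refine ⟨Finset.mem_univ _, ?_⟩
    beta_reduce
    obtain ⟨_, h1, h2⟩ := hk
    by_cases hky : k = y
    · rw [if_pos hky]
      rw [hky] at h1 h2
      rw [hay] at h2
      by_cases hj : (j : ℕ) < q
      · rw [if_pos hj, hby]
        exact ⟨h1, hj⟩
      · rw [if_neg hj, hbx]
        exact ⟨by omega, h2⟩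
    · rw [if_neg hky]
      by_cases hkx : k = x
      · rw [hkx] at h1 h2 ⊢
        rw [hax] at h2
        rw [hbx]
        exact ⟨h1, by omega⟩
      · rw [hbk k hkx hky]
        exact ⟨h1, h2⟩
  · intro k hk l hl hkl
    rw [Finset.mem_coe, Finset.mem_filter] at hk hl
    by_cases hj : (j : ℕ) < q
    · simp only [if_pos hj] at hkl
      split_ifs at hkl with h1 h2 h2
      · rw [h1, h2]
      · rw [h1, hkl]
      · rw [h2, hkl]
      · exact hkl
    · have hnx : ∀ m : Fin n, (a m : ℕ) < q → m ≠ x := by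
        intro m hm h1
        rw [h1, hax] at hm
        exact hj hm
      simp only [if_neg hj] at hkl
      split_ifs at hkl with h1 h2 h2
      · rw [h1, h2]
      · exact absurd hkl.symm (hnx l hl.2.2)
      · exact absurd hkl (hnx k hk.2.2)
      · exact hkl

theorem OneSidedUp.strongUp {A : Finset (Equiv.Perm (Fin n))} (h : OneSidedUp A) : StrongUp A := by
  intro a ha i j hij hinv
  rcases h with h | h
  · exact h a ha _ (fun p q _ => rk_swap a hij hinv p q)
  · exact h a ha _ (fun p q _ => rk_swap a hij hinv p q)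

theorem rank_event (p q s : ℕ) :
    OneSidedUp (univ.filter fun a : Equiv.Perm (Fin n) => s ≤ rk a p q) := by
  rcases le_total p q with h | h
  · left
    intro a ha b hab
    rw [Finset.mem_filter] at ha ⊢
    exact ⟨Finset.mem_univ _, ha.2.trans (hab p q h)⟩
  · right
    intro a ha b hab
    rw [Finset.mem_filter] at ha ⊢
    exact ⟨Finset.mem_univ _, ha.2.trans (hab p q h)⟩

/-! ### the ranks and the open positions -/

theorem rk_symm (a : Equiv.Perm (Fin n)) (p q : ℕ) : rk a.symm p q = rk a q p := by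
  unfold rk
  refine Finset.card_bij (fun k _ => a.symm k) ?_ ?_ ?_
  · intro k hk
    rw [Finset.mem_filter] at hk ⊢
    rw [Equiv.apply_symm_apply]
    exact ⟨Finset.mem_univ _, hk.2.2, hk.2.1⟩
  · intro k _ l _ hkl
    exact a.symm.injective hkl
  · intro k hk
    rw [Finset.mem_filter] at hk
    refine ⟨a k, ?_, Equiv.symm_apply_apply _ _⟩
    rw [Finset.mem_filter, Equiv.symm_apply_apply]
    exact ⟨Finset.mem_univ _, hk.2.2, hk.2.1⟩

theorem card_aP (a : Equiv.Perm (Fin n)) {p q : ℕ} (hpq : p ≤ q) :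
    ((aP a q).filter (· < p)).card + rk a p q =
      (univ.filter fun k : Fin n => (k : ℕ) < p).card := by
  have h1 : (aP a q).filter (· < p) =
      ((univ.filter fun k : Fin n => (k : ℕ) < p).filter fun k => ¬ (a k : ℕ) < q).image
        (fun k : Fin n => (k : ℕ)) := by
    ext m
    rw [Finset.mem_filter, Finset.mem_image]
    constructor
    · rintro ⟨h2, h3⟩
      obtain ⟨h4, _⟩ := mem_aP_lt h2
      have h5 := (mem_aP (σ := a) (q := q) ⟨m, h4⟩).1 h2
      refine ⟨⟨m, h4⟩, ?_, rfl⟩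
      rw [Finset.mem_filter, Finset.mem_filter]
      exact ⟨⟨Finset.mem_univ _, h3⟩, by omega⟩
    · rintro ⟨k, hk, hkm⟩
      rw [Finset.mem_filter, Finset.mem_filter] at hk
      rw [← hkm]
      exact ⟨(mem_aP k).2 ⟨by omega, by omega⟩, hk.1.2⟩
  have h2 : rk a p q = ((univ.filter fun k : Fin n => (k : ℕ) < p).filter fun k =>
      (a k : ℕ) < q).card := by
    unfold rk
    rw [Finset.filter_filter]
  rw [h1, Finset.card_image_of_injective _ Fin.val_injective, h2, add_comm]
  exact Finset.card_filter_add_card_filter_not _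

theorem PHi_iff (a b : Equiv.Perm (Fin n)) :
    PHi (aP b) (aP a) ↔ ∀ p q, p ≤ q → rk a p q ≤ rk b p q := by
  constructor
  · intro h p q hpq
    have h1 := h q p
    have h2 := card_aP a hpq
    have h3 := card_aP b hpq
    omega
  · intro h q p
    rcases le_total p q with hpq | hpq
    · have h1 := h p q hpq
      have h2 := card_aP a hpq
      have h3 := card_aP b hpq
      omega
    · have e : ∀ c : Equiv.Perm (Fin n), (aP c q).filter (· < p) = (aP c q).filter (· < q) := by
        intro c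
        ext m
        rw [Finset.mem_filter, Finset.mem_filter]
        constructor
        · rintro ⟨h1, _⟩
          exact ⟨h1, (mem_aP_lt h1).2⟩
        · rintro ⟨h1, h2⟩
          exact ⟨h1, by omega⟩
      rw [e a, e b]
      have h1 := h q q le_rfl
      have h2 := card_aP a (le_refl q)
      have h3 := card_aP b (le_refl q)
      omega

open Classical in
/-- the path function of a family, positions -/
noncomputable def psiR (A : Finset (Equiv.Perm (Fin n))) (P : ℕ → Finset ℕ) : ℝ :=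
  if ∃ a ∈ A, PHi P (aP a) then 1 else 0

open Classical in
/-- the path function of a family, values -/
noncomputable def psiL (A : Finset (Equiv.Perm (Fin n))) (P : ℕ → Finset ℕ) : ℝ :=
  if ∃ a ∈ A, PHi P (aP a.symm) then 1 else 0

theorem psiR_nonneg (A : Finset (Equiv.Perm (Fin n))) (P : ℕ → Finset ℕ) : 0 ≤ psiR A P := by
  unfold psiR
  split_ifs <;> norm_num

theorem psiL_nonneg (A : Finset (Equiv.Perm (Fin n))) (P : ℕ → Finset ℕ) : 0 ≤ psiL A P := by
  unfold psiL
  split_ifs <;> norm_num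

theorem psiR_mono (A : Finset (Equiv.Perm (Fin n))) : MonoP (psiR A) := by
  intro P P' h
  unfold psiR
  by_cases h1 : ∃ a ∈ A, PHi P' (aP a)
  · obtain ⟨a, ha, h2⟩ := h1
    rw [if_pos ⟨a, ha, h2⟩, if_pos ⟨a, ha, h.trans h2⟩]
  · rw [if_neg h1]
    split_ifs <;> norm_num

theorem psiL_mono (A : Finset (Equiv.Perm (Fin n))) : MonoP (psiL A) := by
  intro P P' h
  unfold psiL
  by_cases h1 : ∃ a ∈ A, PHi P' (aP a.symm)
  · obtain ⟨a, ha, h2⟩ := h1
    rw [if_pos ⟨a, ha, h2⟩, if_pos ⟨a, ha, h.trans h2⟩]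
  · rw [if_neg h1]
    split_ifs <;> norm_num

theorem psiR_eq {A : Finset (Equiv.Perm (Fin n))} (hA : RightUp A) (σ : Equiv.Perm (Fin n)) :
    psiR A (aP σ) = if σ ∈ A then 1 else 0 := by
  unfold psiR
  by_cases h : σ ∈ A
  · rw [if_pos h, if_pos ⟨σ, h, PHi.rfl' _⟩]
  · rw [if_neg h, if_neg]
    rintro ⟨a, ha, h1⟩
    exact h (hA a ha σ ((PHi_iff a σ).1 h1))

theorem psiL_eq {A : Finset (Equiv.Perm (Fin n))} (hA : LeftUp A) (σ : Equiv.Perm (Fin n)) :
    psiL A (aP σ.symm) = if σ ∈ A then 1 else 0 := by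
  unfold psiL
  by_cases h : σ ∈ A
  · rw [if_pos h, if_pos ⟨σ, h, PHi.rfl' _⟩]
  · rw [if_neg h, if_neg]
    rintro ⟨a, ha, h1⟩
    have h2 := (PHi_iff a.symm σ.symm).1 h1
    refine h (hA a ha σ fun p q hpq => ?_)
    have h3 := h2 q p hpq
    rwa [rk_symm, rk_symm] at h3

/-! ### the sums -/

/-- the weighted size of a family -/
noncomputable def SW (t : ℝ) (A : Finset (Equiv.Perm (Fin n))) : ℝ := ∑ a ∈ A, t ^ fixCount a

theorem SW_ind (t : ℝ) (A : Finset (Equiv.Perm (Fin n)))
    (Φ : (ℕ → Finset ℕ) → (ℕ → Finset ℕ) → ℝ)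
    (h : ∀ σ : Equiv.Perm (Fin n), Φ (aP σ) (aP σ.symm) = if σ ∈ A then 1 else 0) :
    SW t A = EJ t Φ n 0 (fun _ => ∅) (fun _ => ∅) := by
  rw [← link_all]
  unfold SW fixCount
  have h1 : ∀ σ : Equiv.Perm (Fin n), t ^ (univ.filter fun k : Fin n => σ k = k).card *
      Φ (aP σ) (aP σ.symm) = if σ ∈ A then t ^ (univ.filter fun k : Fin n => σ k = k).card
        else 0 := by
    intro σ
    rw [h σ]
    split_ifs <;> ring
  rw [Finset.sum_congr rfl fun σ _ => h1 σ, Finset.sum_ite_mem, Finset.univ_inter]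

theorem empty_card : ((fun _ : ℕ => (∅ : Finset ℕ)) 0).card =
    ((fun _ : ℕ => (∅ : Finset ℕ)) 0).card := rfl

theorem SW_right (t : ℝ) {A : Finset (Equiv.Perm (Fin n))} (hA : RightUp A) :
    SW t A = EU t (psiR A) n 0 (fun _ => ∅) := by
  rw [SW_ind t A (fun P _ => psiR A P) (psiR_eq hA)]
  exact EJ_left n 0 _ _ (Finset.empty_subset _) (Finset.empty_subset _) rfl

theorem SW_left (t : ℝ) {A : Finset (Equiv.Perm (Fin n))} (hA : LeftUp A) :
    SW t A = EU t (psiL A) n 0 (fun _ => ∅) := by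
  rw [SW_ind t A (fun _ Q => psiL A Q) (psiL_eq hA), EJ_swap]
  exact EJ_left n 0 _ _ (Finset.empty_subset _) (Finset.empty_subset _) rfl

theorem SW_univ (t : ℝ) : SW t (univ : Finset (Equiv.Perm (Fin n))) = Z t n 0 := by
  rw [SW_ind t univ (fun _ _ => (1 : ℝ)) (fun σ => by rw [if_pos (Finset.mem_univ σ)])]
  rw [EJ_left (ψ := fun _ => (1 : ℝ)) n 0 _ _ (Finset.empty_subset _) (Finset.empty_subset _) rfl,
    EU_one n 0 _ (Finset.empty_subset _), Finset.card_empty]

theorem ite_mul_ite (A B : Finset (Equiv.Perm (Fin n))) (σ : Equiv.Perm (Fin n)) :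
    ((if σ ∈ A then 1 else 0) * (if σ ∈ B then 1 else 0) : ℝ) =
      if σ ∈ A ∩ B then 1 else 0 := by
  by_cases h1 : σ ∈ A
  · by_cases h2 : σ ∈ B
    · rw [if_pos h1, if_pos h2, if_pos (Finset.mem_inter.2 ⟨h1, h2⟩), mul_one]
    · rw [if_neg h2, if_neg (fun h3 => h2 (Finset.mem_inter.1 h3).2), mul_zero]
  · rw [if_neg h1, if_neg (fun h3 => h1 (Finset.mem_inter.1 h3).1), zero_mul]

theorem SW_rr {t : ℝ} (ht : 1 ≤ t) {A B : Finset (Equiv.Perm (Fin n))} (hA : RightUp A)
    (hB : RightUp B) : SW t A * SW t B ≤ SW t (univ : Finset (Equiv.Perm (Fin n))) *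
      SW t (A ∩ B) := by
  have h := EU_pa ht (psiR_nonneg A) (psiR_mono A) (psiR_nonneg B) (psiR_mono B) n 0
    (fun _ => ∅) (Finset.empty_subset _)
  rw [Finset.card_empty] at h
  rw [SW_right t hA, SW_right t hB, SW_univ]
  refine h.trans (le_of_eq ?_)
  rw [SW_ind t (A ∩ B) (fun P _ => psiR A P * psiR B P) fun σ => by
    rw [psiR_eq hA, psiR_eq hB, ite_mul_ite]]
  rw [EJ_left (ψ := fun P => psiR A P * psiR B P) n 0 _ _ (Finset.empty_subset _)
    (Finset.empty_subset _) rfl]

theorem SW_ll {t : ℝ} (ht : 1 ≤ t) {A B : Finset (Equiv.Perm (Fin n))} (hA : LeftUp A)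
    (hB : LeftUp B) : SW t A * SW t B ≤ SW t (univ : Finset (Equiv.Perm (Fin n))) *
      SW t (A ∩ B) := by
  have h := EU_pa ht (psiL_nonneg A) (psiL_mono A) (psiL_nonneg B) (psiL_mono B) n 0
    (fun _ => ∅) (Finset.empty_subset _)
  rw [Finset.card_empty] at h
  rw [SW_left t hA, SW_left t hB, SW_univ]
  refine h.trans (le_of_eq ?_)
  rw [SW_ind t (A ∩ B) (fun _ Q => psiL A Q * psiL B Q) fun σ => by
    rw [psiL_eq hA, psiL_eq hB, ite_mul_ite]]
  rw [EJ_swap, EJ_left (ψ := fun P => psiL A P * psiL B P) n 0 _ _ (Finset.empty_subset _)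
    (Finset.empty_subset _) rfl]

theorem SW_rl {t : ℝ} (ht : 1 ≤ t) {A B : Finset (Equiv.Perm (Fin n))} (hA : RightUp A)
    (hB : LeftUp B) : SW t A * SW t B ≤ SW t (univ : Finset (Equiv.Perm (Fin n))) *
      SW t (A ∩ B) := by
  have h := EJ_ul ht (psiR_nonneg A) (psiR_mono A) (psiL_nonneg B) (psiL_mono B) n 0
    (fun _ => ∅) (fun _ => ∅) (Finset.empty_subset _) (Finset.empty_subset _) rfl
  rw [Finset.card_empty] at h
  rw [SW_right t hA, SW_left t hB, SW_univ]
  refine h.trans (le_of_eq ?_)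
  rw [SW_ind t (A ∩ B) (fun P Q => psiR A P * psiL B Q) fun σ => by
    rw [psiR_eq hA, psiL_eq hB, ite_mul_ite]]

theorem fixCount_le (a : Equiv.Perm (Fin n)) : fixCount a ≤ n := by
  unfold fixCount
  calc _ ≤ (univ : Finset (Fin n)).card := Finset.card_le_card (Finset.filter_subset _ _)
    _ = n := by simp

theorem sum_eq {q : ℝ} (hq : 0 < q) (A : Finset (Equiv.Perm (Fin n))) :
    ∑ a ∈ A, q ^ (n - fixCount a) = q ^ n * SW (1 / q) A := by
  unfold SW
  rw [Finset.mul_sum]
  apply Finset.sum_congr rfl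
  intro a _
  rw [one_div, inv_pow, ← div_eq_mul_inv, eq_div_iff (by positivity), ← pow_add,
    Nat.sub_add_cancel (fixCount_le a)]

theorem mu_le {q : ℝ} (hq : 0 < q) {A B : Finset (Equiv.Perm (Fin n))}
    (h : SW (1 / q) A * SW (1 / q) B ≤ SW (1 / q) (univ : Finset (Equiv.Perm (Fin n))) *
      SW (1 / q) (A ∩ B)) : mu q A * mu q B ≤ mu q (A ∩ B) := by
  have hqn : 0 < q ^ n := by positivity
  have hZ : 0 < SW (1 / q) (univ : Finset (Equiv.Perm (Fin n))) := by
    unfold SW
    exact Finset.sum_pos (fun b _ => by positivity) ⟨1, Finset.mem_univ _⟩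
  unfold mu
  rw [sum_eq hq A, sum_eq hq B, sum_eq hq (A ∩ B), sum_eq hq univ]
  rw [mul_div_mul_left _ _ hqn.ne', mul_div_mul_left _ _ hqn.ne', mul_div_mul_left _ _ hqn.ne',
    div_mul_div_comm, div_le_div_iff₀ (mul_pos hZ hZ) hZ]
  nlinarith [mul_le_mul_of_nonneg_right h hZ.le]

/-- **Positive association of one-sided up-sets for all `0 < q ≤ 1`.** -/
theorem result :
    (∀ (n : ℕ) (q : ℝ), 0 < q → q ≤ 1 → ∀ A B : Finset (Equiv.Perm (Fin n)),
      OneSidedUp A → OneSidedUp B →
        StrongUp A ∧ StrongUp B ∧ mu q A * mu q B ≤ mu q (A ∩ B)) ∧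
    (∀ n p r s : ℕ, OneSidedUp (univ.filter fun a : Equiv.Perm (Fin n) => s ≤ rk a p r)) := by
  refine ⟨?_, fun n p r s => rank_event p r s⟩
  intro n q hq hq1 A B hA hB
  have ht : 1 ≤ 1 / q := by rw [le_div_iff₀ hq]; linarith
  refine ⟨hA.strongUp, hB.strongUp, ?_⟩
  rcases hA with hA | hA <;> rcases hB with hB | hB
  · exact mu_le hq (SW_rr ht hA hB)
  · exact mu_le hq (SW_rl ht hA hB)
  · rw [mul_comm, Finset.inter_comm]
    exact mu_le hq (SW_rl ht hB hA)
  · exact mu_le hq (SW_ll ht hA hB)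

end Pool.Agent.Results.MP_f011a7_co.OneSided
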