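import Pool.Agent.H.MP_f011a7_co.Sil.PAs

/-!
# MP_f011a7_co: positive association of the fixed point measure for `√2 - 1 ≤ q ≤ 1`

For every `n` and every `q` in `[√2 - 1, 1]` the measure `μ(a) ∝ q ^ (n - f(a))` on `S_n`, `f(a)` the
number of fixed points, is positively associated: `μ(A ∩ B) ≥ μ(A) μ(B)` for all strong up-sets.
-/

set_option autoImplicit false

namespace Pool.Agent.Results.MP_f011a7_co.SilverRange

open Finset Equiv

variable {n : ℕ}

/-- `A` is a strong up-set: if `a ∈ A`, `i < j` and the position of `i` in `a` is behind the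
position of `j`, then `a` with the entries `i` and `j` exchanged is in `A`. -/
def StrongUp (A : Finset (Equiv.Perm (Fin n))) : Prop :=
  ∀ a ∈ A, ∀ i j : Fin n, i < j → a.symm j < a.symm i → swap i j * a ∈ A

/-- the number of fixed points -/
def fixCount (a : Equiv.Perm (Fin n)) : ℕ := (univ.filter fun k => a k = k).card

/-- the measure of a family -/
noncomputable def mu (q : ℝ) (A : Finset (Equiv.Perm (Fin n))) : ℝ :=
  (∑ a ∈ A, q ^ (n - fixCount a)) / ∑ b : Equiv.Perm (Fin n), q ^ (n - fixCount b)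

/-- the indicator function -/
noncomputable def ind (A : Finset (Equiv.Perm (Fin n))) (σ : Equiv.Perm (Fin n)) : ℝ :=
  if σ ∈ A then 1 else 0

theorem ind_mon {A : Finset (Equiv.Perm (Fin n))} (hA : StrongUp A) : FixPA.Mon (ind A) := by
  intro σ p q hpq hσ
  unfold ind
  by_cases h : σ * swap p q ∈ A
  · have h1 := hA _ h (σ p) (σ q) hσ (by
      have e1 : (σ * swap p q).symm (σ q) = p := by
        rw [Equiv.symm_apply_eq]; simp
      have e2 : (σ * swap p q).symm (σ p) = q := by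
        rw [Equiv.symm_apply_eq]; simp
      rw [e1, e2]; exact hpq)
    have h2 : swap (σ p) (σ q) * (σ * swap p q) = σ := by
      rw [← mul_assoc, ← Equiv.mul_swap_eq_swap_mul, mul_assoc, Equiv.swap_mul_self, mul_one]
    rw [h2] at h1
    rw [if_pos h, if_pos h1]
  · rw [if_neg h]
    split_ifs <;> norm_num

theorem fixCount_le (a : Equiv.Perm (Fin n)) : fixCount a ≤ n := by
  unfold fixCount
  calc _ ≤ (univ : Finset (Fin n)).card := Finset.card_le_card (Finset.filter_subset _ _)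
    _ = n := by simp

theorem sum_eq {q : ℝ} (hq : 0 < q) (A : Finset (Equiv.Perm (Fin n))) :
    ∑ a ∈ A, q ^ (n - fixCount a) = q ^ n * FixPA.Hs (1 / q) univ 1 (ind A) := by
  have h1 : FixPA.Om (univ : Finset (Fin n)) 1 = univ := by
    ext σ; simp [FixPA.mem_Om]
  unfold FixPA.Hs
  rw [h1, Finset.mul_sum, ← Finset.sum_filter_add_sum_filter_not univ (fun σ => σ ∈ A)]
  have h2 : ∑ x ∈ univ.filter (fun σ => σ ∉ A), q ^ n * (FixPA.wt (1 / q) univ x * ind A x) = 0 := by
    apply Finset.sum_eq_zero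
    intro x hx
    rw [mem_filter] at hx
    unfold ind
    rw [if_neg hx.2]
    simp
  rw [h2, add_zero]
  have h3 : univ.filter (fun σ => σ ∈ A) = A := by ext σ; simp
  rw [h3]
  apply Finset.sum_congr rfl
  intro a ha
  unfold ind
  rw [if_pos ha, mul_one, FixPA.wt_eq_pow]
  change q ^ (n - fixCount a) = q ^ n * (1 / q) ^ fixCount a
  rw [one_div, inv_pow, ← div_eq_mul_inv, eq_div_iff (by positivity), ← pow_add,
    Nat.sub_add_cancel (fixCount_le a)]

/-- **Positive association for `√2 - 1 ≤ q ≤ 1`.** -/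
theorem result : ∀ (n : ℕ) (q : ℝ), Real.sqrt 2 - 1 ≤ q → q ≤ 1 →
    ∀ A B : Finset (Equiv.Perm (Fin n)), StrongUp A → StrongUp B →
      mu q A * mu q B ≤ mu q (A ∩ B) := by
  intro n q hq1 hq2 A B hA hB
  have hs1 : 1 < Real.sqrt 2 := by
    rw [Real.lt_sqrt (by norm_num)]
    norm_num
  have hs2 : Real.sqrt 2 * Real.sqrt 2 = 2 := Real.mul_self_sqrt (by norm_num)
  have hq : 0 < q := by linarith
  have ht1 : 1 ≤ 1 / q := by rw [le_div_iff₀ hq]; linarith
  have ht3 : 1 / q ≤ Real.sqrt 2 + 1 := by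
    rw [div_le_iff₀ hq]
    nlinarith
  have ht2 : (1 / q - 1) ^ 2 ≤ 2 := by
    have h1 : 0 ≤ 1 / q - 1 := by linarith
    have h2 : 1 / q - 1 ≤ Real.sqrt 2 := by linarith
    nlinarith [mul_self_le_mul_self h1 h2]
  have hc : FixPA.Cls (univ : Finset (Fin n)) 1 := by
    intro j _ hj
    exact absurd (Finset.mem_univ j) hj
  have h := FixPA.main_TA ht1 ht2 (ind_mon hA) (ind_mon hB) _ univ 1 rfl hc
  have hone : FixPA.Hs (1 / q) (univ : Finset (Fin n)) 1 (fun _ => (1:ℝ))
      = FixPA.Hs (1 / q) (univ : Finset (Fin n)) 1 (ind (univ : Finset (Equiv.Perm (Fin n)))) := by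
    unfold FixPA.Hs ind
    simp
  have hint : FixPA.Hs (1 / q) (univ : Finset (Fin n)) 1 (fun σ => ind A σ * ind B σ)
      = FixPA.Hs (1 / q) univ 1 (ind (A ∩ B)) := by
    unfold FixPA.Hs
    apply Finset.sum_congr rfl
    intro σ _
    congr 1
    unfold ind
    by_cases h1 : σ ∈ A
    · by_cases h2 : σ ∈ B
      · simp [h1, h2]
      · simp [h2]
    · simp [h1]
  rw [hone, hint] at h
  have hqn : 0 < q ^ n := by positivity
  have hZ : 0 < FixPA.Hs (1 / q) univ 1 (ind (univ : Finset (Equiv.Perm (Fin n)))) := by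
    have h1 : 0 < ∑ b : Equiv.Perm (Fin n), q ^ (n - fixCount b) :=
      Finset.sum_pos (fun b _ => by positivity) ⟨1, Finset.mem_univ _⟩
    rw [sum_eq hq] at h1
    exact (mul_pos_iff_of_pos_left hqn).1 h1
  unfold mu
  rw [sum_eq hq A, sum_eq hq B, sum_eq hq (A ∩ B), sum_eq hq univ]
  rw [mul_div_mul_left _ _ hqn.ne', mul_div_mul_left _ _ hqn.ne', mul_div_mul_left _ _ hqn.ne',
    div_mul_div_comm, div_le_div_iff₀ (mul_pos hZ hZ) hZ]
  nlinarith [mul_le_mul_of_nonneg_right h hZ.le]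

end Pool.Agent.Results.MP_f011a7_co.SilverRange
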